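import Pool.Agent.MP_9ab903_nt.NT.W1

set_option autoImplicit false

open PeriodPair Filter
open scoped Topology

namespace TRS

/-! ## [TRS-A11a] the addition theorem for an arbitrary period lattice (file A11a.lean)

PORT of `MP_9ab903_nt/AN/A4.lean`, lines 745-1215 (`xw_tendsto`, `ratio_tendsto`, `countable_xw_eq`, `countable_xw_add_eq`, `a3D`, ..., `add_x`, `add_y`), where this is done for one special lattice (`xw`, `yw` there: `xw' = OmC yw`, `yw² = 4 xw³ + 1`; here `℘`, `℘'`,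
`℘'² = 4℘³ - g₂℘ - g₃`, i.e. replace `OmC` by `1`, `Set.range emb` by `P.lattice`). General facts: `MP_9ab903_nt/NT/W1.lean`, namespace `WP63` (`hasDerivAt_wp`, `deriv_dwp : deriv ℘' z = 6℘² - g₂/2`, `wp_eq_iff`, `dwp_eq_zero_iff`, `wp_tendsto`, `lattice_countable`),
`MP_9c45e8_nt/F2.lean` (`tendsto_sq_mul_weierstrassP`).

Fix `v ∉ P`. `D = {z | z ∉ P, z + v ∉ P, ℘(z + v) ≠ ℘(z)}` is open with countable complement, so connected, `0` is in its closure. `X₁ = ℘(z), Y₁ = ℘'(z), X₂ = ℘(z+v), Y₂ = ℘'(z+v)`, `s = (Y₂ + Y₁)/(X₂ - X₁)`; `s' = 2 (X₂ - X₁)` (the terms with `g₂` cancel).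
* `f(z) = s²/4 - X₁ - X₂` has derivative `s s'/2 - Y₁ - Y₂ = 0` on `D`, and tends to `℘(v)` for `z → 0`:
  `f = (Y₂² + 2 Y₁ Y₂ + Y₁² - 4 (X₁ + X₂)(X₂ - X₁)²)/(4 (X₂ - X₁)²)`, `Y₁² = 4X₁³ - g₂X₁ - g₃`, `|X₁| → ∞`, `Y₁/X₁² → 0`, `X₂ → ℘(v)`, `Y₂ → ℘'(v)`.
* `g(z) = -(Y₂ + s (℘(v) - X₂))` has derivative `0` on `D` (use `℘(v) = s²/4 - X₁ - X₂` and `s (Y₂ - Y₁) = 4(X₂² + X₁X₂ + X₁²) - g₂`). As `z → 0`: `s z → 2`, `(℘(v) - ℘(z+v))/z → -℘'(v)`, so `g → -(℘'(v) - 2℘'(v)) = ℘'(v)`. -/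

variable (P : PeriodPair)

/-- near `0`: `z³ ℘'(z) → -2` -/
theorem a11a_cube : Tendsto (fun z => z ^ 3 * ℘'[P] z) (𝓝[≠] 0) (𝓝 (-2)) := by
  have h1 : ContinuousAt (fun z : ℂ => z ^ 3 * P.derivWeierstrassPExcept 0 z - 2) 0 := by
    have := (P.analyticAt_derivWeierstrassPExcept 0).continuousAt
    fun_prop
  have h2 : Tendsto (fun z : ℂ => z ^ 3 * P.derivWeierstrassPExcept 0 z - 2) (𝓝[≠] 0)
      (𝓝 (-2)) := by
    have h3 := h1.tendsto.mono_left (nhdsWithin_le_nhds (s := {0}ᶜ))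
    simpa using h3
  apply h2.congr'
  filter_upwards [self_mem_nhdsWithin] with z hz
  have hz' : z ≠ 0 := hz
  have h4 := P.derivWeierstrassPExcept_sub 0 z
  simp only [ZeroMemClass.coe_zero, sub_zero] at h4
  rw [← h4]
  field_simp

theorem a11a_ratio : Tendsto (fun z => z * ℘'[P] z / ℘[P] z) (𝓝[≠] 0) (𝓝 (-2)) := by
  have h1 := (a11a_cube P).div (MP9c45e8.tendsto_sq_mul_weierstrassP P) one_ne_zero
  rw [div_one] at h1
  apply h1.congr'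
  filter_upwards [self_mem_nhdsWithin] with z hz
  have hz' : z ≠ 0 := hz
  simp only [Pi.div_apply]
  by_cases hP : ℘[P] z = 0
  · simp [hP]
  · field_simp

/-- the set where the last condition fails is countable (`countable_xw_add_eq`) -/
theorem countable_wp_add_eq {v : ℂ} (hv : v ∉ P.lattice) :
    {z : ℂ | z ∉ P.lattice ∧ z + v ∉ P.lattice ∧ ℘[P] (z + v) = ℘[P] z}.Countable := by
  have h1 : ((fun z : ℂ => 2 * z + v) ⁻¹' (P.lattice : Set ℂ)).Countable := by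
    refine (WP63.lattice_countable P).preimage ?_
    intro a b hab
    simp only at hab
    linear_combination hab / 2
  refine h1.mono ?_
  rintro z ⟨hz1, hz2, hz3⟩
  rcases (WP63.wp_eq_iff P hz2 hz1).1 hz3 with h | h
  · exact absurd (by simpa using h) hv
  · have e : z + v + z = 2 * z + v := by ring
    rw [e] at h
    exact h

/-- The domain of the addition theorem. -/
def a11aD (v : ℂ) : Set ℂ :=
  {z | z ∉ P.lattice ∧ z + v ∉ P.lattice ∧ ℘[P] (z + v) ≠ ℘[P] z}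

variable {P}

theorem a11a_countable_compl {v : ℂ} (hv : v ∉ P.lattice) : (a11aD P v)ᶜ.Countable := by
  have h1 := WP63.lattice_countable P
  have h2 : {z : ℂ | z + v ∈ P.lattice}.Countable := by
    have h3 : {z : ℂ | z + v ∈ P.lattice} = (fun z => z + v) ⁻¹' (P.lattice : Set ℂ) := rfl
    rw [h3]
    exact h1.preimage (add_left_injective v)
  apply ((h1.union h2).union (countable_wp_add_eq P hv)).mono
  intro z hz
  by_cases ha : z ∈ P.lattice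
  · exact Or.inl (Or.inl ha)
  by_cases hb : z + v ∈ P.lattice
  · exact Or.inl (Or.inr hb)
  right
  refine ⟨ha, hb, ?_⟩
  by_contra hc
  exact hz ⟨ha, hb, hc⟩

theorem a11a_isOpen_compl : IsOpen {z : ℂ | z ∉ P.lattice} :=
  P.isClosed_lattice.isOpen_compl

theorem a11a_isOpen (v : ℂ) : IsOpen (a11aD P v) := by
  have h1 := a11a_isOpen_compl (P := P)
  have h2 : IsOpen {z : ℂ | z + v ∉ P.lattice} :=
    h1.preimage (f := fun z => z + v) (by fun_prop)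
  have h3 : IsOpen ({z : ℂ | z ∉ P.lattice} ∩ {z : ℂ | z + v ∉ P.lattice}) := h1.inter h2
  have h4 : ContinuousOn (fun z => ℘[P] (z + v) - ℘[P] z)
      ({z : ℂ | z ∉ P.lattice} ∩ {z : ℂ | z + v ∉ P.lattice}) := by
    intro z hz
    apply ContinuousAt.continuousWithinAt
    have e1 : ContinuousAt (fun z => ℘[P] (z + v)) z :=
      ContinuousAt.comp (g := ℘[P]) (f := fun z => z + v) (WP63.hasDerivAt_wp P hz.2).continuousAt
        (by fun_prop)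
    exact e1.sub (WP63.hasDerivAt_wp P hz.1).continuousAt
  have h5 := h4.isOpen_inter_preimage h3 (isOpen_compl_singleton (x := (0 : ℂ)))
  convert h5 using 1
  ext z
  simp only [a11aD, Set.mem_ofPred_eq, Set.mem_inter_iff, Set.mem_preimage, Set.mem_compl_iff,
    Set.mem_singleton_iff, sub_eq_zero]
  tauto

theorem a11a_isPreconnected {v : ℂ} (hv : v ∉ P.lattice) : IsPreconnected (a11aD P v) := by
  have h := (a11a_countable_compl hv).isPathConnected_compl_of_one_lt_rank (E := ℂ)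
    (by rw [Complex.rank_real_complex]; exact Nat.one_lt_ofNat)
  rw [compl_compl] at h
  exact h.isConnected.isPreconnected

theorem a11a_neBot {v : ℂ} (hv : v ∉ P.lattice) : (𝓝[a11aD P v] (0 : ℂ)).NeBot := by
  rw [← mem_closure_iff_nhdsWithin_neBot]
  have h := (a11a_countable_compl hv).dense_compl ℝ
  rw [compl_compl] at h
  exact h 0

theorem a11a_le (v : ℂ) : 𝓝[a11aD P v] (0 : ℂ) ≤ 𝓝[≠] 0 := by
  apply nhdsWithin_mono
  intro z hz h0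
  rw [Set.mem_singleton_iff] at h0
  subst h0
  exact hz.1 (zero_mem _)

variable (P)

/-- The slope. -/
noncomputable def a11as (v z : ℂ) : ℂ := (℘'[P] (z + v) + ℘'[P] z) / (℘[P] (z + v) - ℘[P] z)

theorem a11a_dx {z : ℂ} (h : z ∉ P.lattice) : HasDerivAt (fun z => ℘[P] z) (℘'[P] z) z :=
  WP63.hasDerivAt_wp P h

theorem a11a_dy {z : ℂ} (h : z ∉ P.lattice) :
    HasDerivAt (fun z => ℘'[P] z) (6 * ℘[P] z ^ 2 - P.g₂ / 2) z := by
  have h1 := WP63.hasDerivAt_dwp P h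
  rw [WP63.deriv_dwp P h] at h1
  exact h1

theorem a11a_dx' (v z : ℂ) (h : z + v ∉ P.lattice) :
    HasDerivAt (fun z => ℘[P] (z + v)) (℘'[P] (z + v)) z := by
  have h1 := (a11a_dx P h).comp_add_const z v
  exact h1

theorem a11a_dy' (v z : ℂ) (h : z + v ∉ P.lattice) :
    HasDerivAt (fun z => ℘'[P] (z + v)) (6 * ℘[P] (z + v) ^ 2 - P.g₂ / 2) z := by
  have h1 := (a11a_dy P h).comp_add_const z v
  exact h1

theorem a11a_deriv_s {v z : ℂ} (hz : z ∈ a11aD P v) :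
    HasDerivAt (a11as P v) (2 * (℘[P] (z + v) - ℘[P] z)) z := by
  obtain ⟨h1, h2, h3⟩ := hz
  have hne : ℘[P] (z + v) - ℘[P] z ≠ 0 := sub_ne_zero.2 h3
  have e1 := ((a11a_dy' P v z h2).add (a11a_dy P h1)).div
    ((a11a_dx' P v z h2).sub (a11a_dx P h1)) hne
  have w1 := P.derivWeierstrassP_sq z h1
  have w2 := P.derivWeierstrassP_sq (z + v) h2
  refine e1.congr_deriv ?_
  simp only [Pi.add_apply, Pi.sub_apply]
  rw [div_eq_iff (pow_ne_zero 2 hne)]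
  linear_combination (-1) * w2 + w1

theorem a11a_deriv_f {v z : ℂ} (hz : z ∈ a11aD P v) :
    HasDerivAt (fun z => a11as P v z ^ 2 / 4 - ℘[P] (z + v) - ℘[P] z) 0 z := by
  have hz' := hz
  obtain ⟨h1, h2, h3⟩ := hz
  have hne : ℘[P] (z + v) - ℘[P] z ≠ 0 := sub_ne_zero.2 h3
  have e1 := (((a11a_deriv_s P hz').pow 2).div_const 4).sub (a11a_dx' P v z h2)
  have e2 := e1.sub (a11a_dx P h1)
  refine e2.congr_deriv ?_
  have e3 : a11as P v z * (℘[P] (z + v) - ℘[P] z) = ℘'[P] (z + v) + ℘'[P] z := by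
    rw [a11as, div_mul_cancel₀ _ hne]
  push_cast
  linear_combination e3

theorem a11a_const {v : ℂ} (hv : v ∉ P.lattice) (f : ℂ → ℂ)
    (hf : ∀ z ∈ a11aD P v, HasDerivAt f 0 z) (c : ℂ) (hc : Tendsto f (𝓝[a11aD P v] (0 : ℂ)) (𝓝 c))
    (z : ℂ) (hz : z ∈ a11aD P v) : f z = c := by
  have h1 : ∀ x ∈ a11aD P v, f x = f z := by
    intro x hx
    apply (a11a_isOpen v).is_const_of_deriv_eq_zero (a11a_isPreconnected hv) _ _ hx hz
    · intro y hy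
      exact (hf y hy).differentiableAt.differentiableWithinAt
    · intro y hy
      exact (hf y hy).deriv
  have h2 : Tendsto f (𝓝[a11aD P v] (0 : ℂ)) (𝓝 (f z)) := by
    apply tendsto_const_nhds.congr'
    filter_upwards [self_mem_nhdsWithin] with x hx
    exact (h1 x hx).symm
  have := a11a_neBot hv
  exact tendsto_nhds_unique h2 hc

theorem a11a_lim_x {v : ℂ} (hv : v ∉ P.lattice) :
    Tendsto (fun z => ℘[P] (z + v)) (𝓝[a11aD P v] (0 : ℂ)) (𝓝 (℘[P] v)) := by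
  have h : ContinuousAt (fun z => ℘[P] (z + v)) 0 :=
    (a11a_dx' P v 0 (by rwa [zero_add])).continuousAt
  have h2 := h.tendsto
  simp only [zero_add] at h2
  exact h2.mono_left nhdsWithin_le_nhds

theorem a11a_lim_y {v : ℂ} (hv : v ∉ P.lattice) :
    Tendsto (fun z => ℘'[P] (z + v)) (𝓝[a11aD P v] (0 : ℂ)) (𝓝 (℘'[P] v)) := by
  have h : ContinuousAt (fun z => ℘'[P] (z + v)) 0 :=
    (a11a_dy' P v 0 (by rwa [zero_add])).continuousAt
  have h2 := h.tendsto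
  simp only [zero_add] at h2
  exact h2.mono_left nhdsWithin_le_nhds

theorem a11a_lim_t (v : ℂ) : Tendsto (fun z => (℘[P] z)⁻¹) (𝓝[a11aD P v] (0 : ℂ)) (𝓝 0) := by
  rw [tendsto_zero_iff_norm_tendsto_zero]
  have h := ((WP63.wp_tendsto P).mono_left (a11a_le (P := P) v)).inv_tendsto_atTop
  refine h.congr ?_
  intro z
  simp

theorem a11a_ne_zero (v : ℂ) : ∀ᶠ z in 𝓝[a11aD P v] (0 : ℂ), ℘[P] z ≠ 0 := by
  have h := ((WP63.wp_tendsto P).mono_left (a11a_le (P := P) v)).eventually_gt_atTop 0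
  filter_upwards [h] with z hz
  exact norm_pos_iff.1 hz

theorem a11a_lim_r (v : ℂ) :
    Tendsto (fun z => ℘'[P] z * (℘[P] z)⁻¹ ^ 2) (𝓝[a11aD P v] (0 : ℂ)) (𝓝 0) := by
  have ht := a11a_lim_t P v
  have h1 : Tendsto (fun z => 4 * (℘[P] z)⁻¹ - P.g₂ * (℘[P] z)⁻¹ ^ 3 - P.g₃ * (℘[P] z)⁻¹ ^ 4)
      (𝓝[a11aD P v] (0 : ℂ)) (𝓝 0) := by
    have := ((ht.const_mul 4).sub ((ht.pow 3).const_mul P.g₂)).sub ((ht.pow 4).const_mul P.g₃)
    simpa using this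
  have h2 : Tendsto (fun z => (℘'[P] z * (℘[P] z)⁻¹ ^ 2) ^ 2) (𝓝[a11aD P v] (0 : ℂ)) (𝓝 0) := by
    apply h1.congr'
    filter_upwards [a11a_ne_zero P v, self_mem_nhdsWithin] with z hz hD
    have w1 := P.derivWeierstrassP_sq z hD.1
    have e1 : (℘'[P] z * (℘[P] z)⁻¹ ^ 2) ^ 2 = ℘'[P] z ^ 2 * (℘[P] z)⁻¹ ^ 4 := by ring
    rw [e1, w1]
    field_simp
  rw [tendsto_zero_iff_norm_tendsto_zero] at h2 ⊢
  have h3 := h2.sqrt
  rw [Real.sqrt_zero] at h3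
  refine h3.congr ?_
  intro z
  rw [norm_pow, Real.sqrt_sq (norm_nonneg _)]

theorem a11a_lim_f {v : ℂ} (hv : v ∉ P.lattice) :
    Tendsto (fun z => a11as P v z ^ 2 / 4 - ℘[P] (z + v) - ℘[P] z) (𝓝[a11aD P v] (0 : ℂ))
      (𝓝 (℘[P] v)) := by
  have ht := a11a_lim_t P v
  have hr := a11a_lim_r P v
  have hX := a11a_lim_x P hv
  have hY := a11a_lim_y P hv
  have h1 : Tendsto (fun z => ((-2 * P.g₃) * (℘[P] z)⁻¹ ^ 2 - P.g₂ * (℘[P] z)⁻¹
      - P.g₂ * ((℘[P] z)⁻¹ ^ 2 * ℘[P] (z + v)) +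
      2 * ((℘'[P] z * (℘[P] z)⁻¹ ^ 2) * ℘'[P] (z + v)) +
      4 * ℘[P] (z + v) + 4 * ((℘[P] z)⁻¹ * ℘[P] (z + v) ^ 2)) /
      (4 * ((℘[P] z)⁻¹ * ℘[P] (z + v) - 1) ^ 2)) (𝓝[a11aD P v] (0 : ℂ)) (𝓝 (℘[P] v)) := by
    have n1 := (((((ht.pow 2).const_mul (-2 * P.g₃)).sub (ht.const_mul P.g₂)).sub
      (((ht.pow 2).mul hX).const_mul P.g₂)).add ((hr.mul hY).const_mul 2)).add (hX.const_mul 4)
    have n2 := n1.add ((ht.mul (hX.pow 2)).const_mul 4)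
    have n3 := (((ht.mul hX).sub_const 1).pow 2).const_mul 4
    have n4 := n2.div n3 (by norm_num)
    have hval : ((-2 * P.g₃) * 0 ^ 2 - P.g₂ * 0 - P.g₂ * (0 ^ 2 * ℘[P] v) +
        2 * (0 * ℘'[P] v) + 4 * ℘[P] v + 4 * (0 * ℘[P] v ^ 2)) /
        (4 * (0 * ℘[P] v - 1) ^ 2) = ℘[P] v := by
      ring
    rw [hval] at n4
    exact n4
  apply h1.congr'
  filter_upwards [a11a_ne_zero P v, self_mem_nhdsWithin] with z hz hD
  obtain ⟨d1, d2, d3⟩ := hD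
  have hne : ℘[P] (z + v) - ℘[P] z ≠ 0 := sub_ne_zero.2 d3
  have w1 := P.derivWeierstrassP_sq z d1
  have w2 := P.derivWeierstrassP_sq (z + v) d2
  have e1 : (℘[P] z)⁻¹ * ℘[P] (z + v) - 1 = (℘[P] z)⁻¹ * (℘[P] (z + v) - ℘[P] z) := by
    field_simp
  rw [e1, a11as, div_pow]
  have e2 : ((-2 * P.g₃) * (℘[P] z)⁻¹ ^ 2 - P.g₂ * (℘[P] z)⁻¹
      - P.g₂ * ((℘[P] z)⁻¹ ^ 2 * ℘[P] (z + v)) +
      2 * ((℘'[P] z * (℘[P] z)⁻¹ ^ 2) * ℘'[P] (z + v)) +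
      4 * ℘[P] (z + v) + 4 * ((℘[P] z)⁻¹ * ℘[P] (z + v) ^ 2)) =
      (℘[P] z)⁻¹ ^ 2 * (-2 * P.g₃ - P.g₂ * ℘[P] z - P.g₂ * ℘[P] (z + v) +
        2 * ℘'[P] z * ℘'[P] (z + v) + 4 * ℘[P] z ^ 2 * ℘[P] (z + v) +
        4 * ℘[P] z * ℘[P] (z + v) ^ 2) := by
    field_simp
  rw [e2, mul_pow, mul_left_comm 4, mul_div_mul_left _ _ (pow_ne_zero 2 (inv_ne_zero hz))]
  have key : (℘'[P] (z + v) + ℘'[P] z) ^ 2 / (℘[P] (z + v) - ℘[P] z) ^ 2 / 4 - ℘[P] (z + v) - ℘[P] z =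
      ((℘'[P] (z + v) + ℘'[P] z) ^ 2 - 4 * (℘[P] z + ℘[P] (z + v)) * (℘[P] (z + v) - ℘[P] z) ^ 2) /
      (4 * (℘[P] (z + v) - ℘[P] z) ^ 2) := by
    field_simp
    ring
  rw [key]
  congr 1
  linear_combination (-1) * w1 + (-1) * w2

theorem wp_add {z v : ℂ} (hz : z ∉ P.lattice) (hv : v ∉ P.lattice) (hzv : z + v ∉ P.lattice)
    (hx : ℘[P] (z + v) ≠ ℘[P] z) :
    ((℘'[P] (z + v) + ℘'[P] z) / (℘[P] (z + v) - ℘[P] z)) ^ 2 / 4 - ℘[P] (z + v) - ℘[P] z = ℘[P] v :=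
  a11a_const P hv (fun z => a11as P v z ^ 2 / 4 - ℘[P] (z + v) - ℘[P] z)
    (fun _ hz => a11a_deriv_f P hz) (℘[P] v) (a11a_lim_f P hv) z ⟨hz, hzv, hx⟩

theorem a11a_deriv_g {v z : ℂ} (hv : v ∉ P.lattice) (hz : z ∈ a11aD P v) :
    HasDerivAt (fun z => -(℘'[P] (z + v) + a11as P v z * (℘[P] v - ℘[P] (z + v)))) 0 z := by
  have hz' := hz
  obtain ⟨h1, h2, h3⟩ := hz
  have hne : ℘[P] (z + v) - ℘[P] z ≠ 0 := sub_ne_zero.2 h3
  have e1 := ((a11a_dy' P v z h2).add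
    ((a11a_deriv_s P hz').mul ((a11a_dx' P v z h2).const_sub (℘[P] v)))).neg
  refine e1.congr_deriv ?_
  have e2 := wp_add P h1 hv h2 h3
  have e3 : a11as P v z * (℘[P] (z + v) - ℘[P] z) = ℘'[P] (z + v) + ℘'[P] z := by
    rw [a11as, div_mul_cancel₀ _ hne]
  have e4 : ((℘'[P] (z + v) + ℘'[P] z) / (℘[P] (z + v) - ℘[P] z)) = a11as P v z := rfl
  rw [e4] at e2
  have w1 := P.derivWeierstrassP_sq z h1
  have w2 := P.derivWeierstrassP_sq (z + v) h2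
  have e5 : a11as P v z * (℘'[P] (z + v) - ℘'[P] z) * (℘[P] (z + v) - ℘[P] z) =
      ℘'[P] (z + v) ^ 2 - ℘'[P] z ^ 2 := by
    linear_combination (℘'[P] (z + v) - ℘'[P] z) * e3
  have e6 : a11as P v z * (℘'[P] (z + v) - ℘'[P] z) =
      4 * (℘[P] (z + v) ^ 2 + ℘[P] (z + v) * ℘[P] z + ℘[P] z ^ 2) - P.g₂ := by
    apply mul_right_cancel₀ hne
    rw [e5, w1, w2]
    ring
  rw [← e2]
  linear_combination (-(a11as P v z) / 2) * e3 + (1 / 2) * e6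

theorem a11a_lim_g {v : ℂ} (hv : v ∉ P.lattice) :
    Tendsto (fun z => -(℘'[P] (z + v) + a11as P v z * (℘[P] v - ℘[P] (z + v))))
      (𝓝[a11aD P v] (0 : ℂ)) (𝓝 (℘'[P] v)) := by
  have ht := a11a_lim_t P v
  have hX := a11a_lim_x P hv
  have hY := a11a_lim_y P hv
  have hz0 : Tendsto (fun z : ℂ => z) (𝓝[a11aD P v] (0 : ℂ)) (𝓝 0) :=
    tendsto_id.mono_left nhdsWithin_le_nhds
  have hR := (a11a_ratio P).mono_left (a11a_le (P := P) v)
  have hq : Tendsto (fun z => z⁻¹ * (℘[P] (z + v) - ℘[P] v)) (𝓝[a11aD P v] (0 : ℂ))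
      (𝓝 (℘'[P] v)) := by
    have h := (WP63.hasDerivAt_wp P hv).tendsto_slope_zero
    have h2 := h.mono_left (a11a_le (P := P) v)
    refine h2.congr ?_
    intro z
    rw [smul_eq_mul, add_comm v z]
  have h1 : Tendsto (fun z => -(℘'[P] (z + v) +
      ((z * (℘[P] z)⁻¹ * ℘'[P] (z + v) + z * ℘'[P] z / ℘[P] z) / ((℘[P] z)⁻¹ * ℘[P] (z + v) - 1)) *
      (-(z⁻¹ * (℘[P] (z + v) - ℘[P] v))))) (𝓝[a11aD P v] (0 : ℂ)) (𝓝 (℘'[P] v)) := by
    have n1 := ((hz0.mul ht).mul hY).add hR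
    have n2 := (ht.mul hX).sub_const 1
    have n3 := n1.div n2 (by norm_num)
    have n4 := (hY.add (n3.mul hq.neg)).neg
    have hval : -(℘'[P] v + (0 * 0 * ℘'[P] v + -2) / (0 * ℘[P] v - 1) * -(℘'[P] v)) = ℘'[P] v := by
      ring
    rw [hval] at n4
    exact n4
  apply h1.congr'
  filter_upwards [a11a_ne_zero P v, self_mem_nhdsWithin] with z hz hD
  obtain ⟨d1, d2, d3⟩ := hD
  have hz0 : z ≠ 0 := by
    rintro rfl
    exact d1 (zero_mem _)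
  have hne : ℘[P] (z + v) - ℘[P] z ≠ 0 := sub_ne_zero.2 d3
  have e1 : (℘[P] z)⁻¹ * ℘[P] (z + v) - 1 = (℘[P] z)⁻¹ * (℘[P] (z + v) - ℘[P] z) := by
    field_simp
  have e2 : z * (℘[P] z)⁻¹ * ℘'[P] (z + v) + z * ℘'[P] z / ℘[P] z =
      (℘[P] z)⁻¹ * (z * (℘'[P] (z + v) + ℘'[P] z)) := by
    field_simp
  rw [e1, e2, mul_div_mul_left _ _ (inv_ne_zero hz), a11as]
  field_simp
  ring

theorem dwp_add {z v : ℂ} (hz : z ∉ P.lattice) (hv : v ∉ P.lattice) (hzv : z + v ∉ P.lattice)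
    (hx : ℘[P] (z + v) ≠ ℘[P] z) :
    -(℘'[P] (z + v) + (℘'[P] (z + v) + ℘'[P] z) / (℘[P] (z + v) - ℘[P] z) * (℘[P] v - ℘[P] (z + v))) =
      ℘'[P] v :=
  a11a_const P hv (fun z => -(℘'[P] (z + v) + a11as P v z * (℘[P] v - ℘[P] (z + v))))
    (fun _ hz => a11a_deriv_g P hv hz) (℘'[P] v) (a11a_lim_g P hv) z ⟨hz, hzv, hx⟩

end TRS
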